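import Mathlib

set_option autoImplicit false

open Finset Filter Topology

namespace Pool.Agent.H7.Bloch

/-- weights -/
lemma sum_inv_sqrt (i : ℕ) : ∑ j ∈ range i, 1 / Real.sqrt (j + 1) ≤ 2 * Real.sqrt i := by
  induction i with
  | zero => simp
  | succ i ih =>
    rw [sum_range_succ]
    push_cast
    have h1 : 0 < Real.sqrt (i + 1) := Real.sqrt_pos.2 (by positivity)
    have h2 : Real.sqrt (i + 1) ^ 2 = i + 1 := Real.sq_sqrt (by positivity)
    have h3 : Real.sqrt i ^ 2 = i := Real.sq_sqrt (by positivity)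
    have h4 := Real.sqrt_nonneg (i : ℝ)
    have h5 : 1 / Real.sqrt (i + 1) ≤ 2 * Real.sqrt (i + 1) - 2 * Real.sqrt i := by
      rw [div_le_iff₀ h1]
      nlinarith [sq_nonneg (Real.sqrt (i + 1) - Real.sqrt i)]
    linarith

lemma exists_weights (δ : ℝ) (hδ : 0 < δ) : ∃ J : ℕ, ∃ c : ℕ → ℝ, c 0 = 1 ∧ (∀ i, 0 ≤ c i) ∧
    ∑ i ∈ range J, c (i + 1) ^ 2 = 1 ∧ ∀ i, c (i + 1) * ∑ j ∈ range (i + 1), c j ≤ δ := by
  obtain ⟨J, hJ⟩ := ((Real.tendsto_sum_range_one_div_nat_succ_atTop.eventually_ge_atTop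
    (max 1 ((3 / δ) ^ 2)))).exists
  set Hs := ∑ i ∈ range J, (1 : ℝ) / (i + 1) with hHs
  have hH1 : 1 ≤ Hs := (le_max_left _ _).trans hJ
  have hH2 : (3 / δ) ^ 2 ≤ Hs := (le_max_right _ _).trans hJ
  have hH0 : 0 < Hs := by linarith
  set a := 1 / Real.sqrt Hs with ha
  have hs0 : 0 < Real.sqrt Hs := Real.sqrt_pos.2 hH0
  have ha0 : 0 < a := by positivity
  have ha1 : a ≤ 1 := by
    rw [ha, div_le_one hs0]
    exact Real.one_le_sqrt.2 hH1
  have ha2 : 3 * a ≤ δ := by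
    have h1 : 3 / δ ≤ Real.sqrt Hs := Real.le_sqrt_of_sq_le hH2
    rw [div_le_iff₀ hδ] at h1
    rw [ha, mul_one_div, div_le_iff₀ hs0]
    linarith
  refine ⟨J, fun i => if i = 0 then 1 else a / Real.sqrt i, by simp, ?_, ?_, ?_⟩
  · intro i; dsimp only; split_ifs <;> positivity
  · have h1 : ∀ i ∈ range J, (if i + 1 = 0 then (1 : ℝ) else a / Real.sqrt ((i + 1 : ℕ) : ℝ)) ^ 2 = a ^ 2 * (1 / (i + 1)) := by
      intro i _
      rw [if_neg (Nat.succ_ne_zero i), div_pow, Real.sq_sqrt (by positivity)]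
      push_cast; ring
    rw [sum_congr rfl h1, ← mul_sum, ← hHs, ha, div_pow, Real.sq_sqrt hH0.le]
    field_simp
  · intro i
    dsimp only
    rw [if_neg (Nat.succ_ne_zero i), sum_range_succ']
    have h1 : ∑ k ∈ range i, (if k + 1 = 0 then (1 : ℝ) else a / Real.sqrt ((k + 1 : ℕ) : ℝ)) =
        a * ∑ k ∈ range i, 1 / Real.sqrt (k + 1) := by
      rw [mul_sum]
      refine sum_congr rfl fun k _ => ?_
      rw [if_neg (Nat.succ_ne_zero k)]
      push_cast; ring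
    rw [h1, if_pos rfl]
    have h2 := sum_inv_sqrt i
    have h3 : Real.sqrt i ≤ Real.sqrt ((i + 1 : ℕ) : ℝ) := Real.sqrt_le_sqrt (by push_cast; linarith)
    have h4 : 1 ≤ Real.sqrt ((i + 1 : ℕ) : ℝ) := Real.one_le_sqrt.2 (by push_cast; linarith [Nat.cast_nonneg (α := ℝ) i])
    have h5 : 0 < Real.sqrt ((i + 1 : ℕ) : ℝ) := by linarith
    rw [div_mul_eq_mul_div, div_le_iff₀ h5]
    nlinarith [mul_le_mul_of_nonneg_left h2 ha0.le, mul_le_mul_of_nonneg_left h3 ha0.le,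
      mul_nonneg ha0.le h5.le, mul_nonneg ha0.le (sub_nonneg.2 ha1)]

/-- two-sided evaluation -/
noncomputable def ev (h : ℤ → ℝ) (z : ℂ) : ℂ := ∑' n : ℤ, (h n : ℂ) * z ^ n

/-- states of the construction -/
structure St (β : ℝ) (M : ℕ) (h : ℤ → ℝ) : Prop where
  nonneg : ∀ n, 0 ≤ h n
  one : h 0 = 1
  symm : ∀ n, h (-n) = h n
  supp : ∀ n : ℤ, (M : ℤ) < |n| → h n = 0
  pos : ∀ z : ℂ, ‖z‖ = 1 → ∃ t : ℝ, 0 ≤ t ∧ ev h z = t
  bl : ∀ N : ℕ, ∑ n ∈ range (N + 1), (n : ℝ) * h n ≤ β * N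

lemma St.summable {β : ℝ} {M : ℕ} {h : ℤ → ℝ} (hs : St β M h) (z : ℂ) (ν : ℤ) :
    Summable fun n : ℤ => (h (n - ν) : ℂ) * z ^ n := by
  apply summable_of_ne_finset_zero (s := Finset.Icc (ν - M) (ν + M))
  intro n hn
  have : h (n - ν) = 0 := by
    apply hs.supp
    rw [Finset.mem_Icc] at hn
    rw [lt_abs]
    omega
  rw [this]; simp

lemma ev_shift (h : ℤ → ℝ) {z : ℂ} (hz : z ≠ 0) (ν : ℤ) :
    ∑' n : ℤ, (h (n - ν) : ℂ) * z ^ n = z ^ ν * ev h z := by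
  unfold ev
  rw [← tsum_mul_left, ← (Equiv.addRight ν).tsum_eq]
  refine tsum_congr fun n => ?_
  simp only [Equiv.coe_addRight, add_sub_cancel_right]
  rw [zpow_add₀ hz]
  ring

/-- sums of the shifted coefficients -/
lemma St.sum_le {β : ℝ} {M : ℕ} {h : ℤ → ℝ} (hs : St β M h) (s : Finset ℤ) :
    ∑ m ∈ s, h m ≤ ∑ m ∈ Finset.Icc (-(M : ℤ)) M, h m := by
  rw [← sum_filter_add_sum_filter_not s (fun m => m ∈ Finset.Icc (-(M : ℤ)) M)]
  have h1 : ∑ m ∈ s.filter (fun m => m ∉ Finset.Icc (-(M : ℤ)) M), h m = 0 := by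
    refine sum_eq_zero fun m hm => ?_
    apply hs.supp
    rw [mem_filter, Finset.mem_Icc] at hm
    rw [lt_abs]
    omega
  rw [h1, add_zero]
  exact sum_le_sum_of_subset_of_nonneg (fun m hm => (mem_filter.1 hm).2) (fun m _ _ => hs.nonneg m)

/-- frequencies -/
def lm (Λ : ℕ) (i : ℕ) : ℤ := if i = 0 then 0 else Λ * 4 ^ (i - 1)

lemma lm_zero (Λ : ℕ) : lm Λ 0 = 0 := rfl
lemma lm_succ (Λ i : ℕ) : lm Λ (i + 1) = Λ * 4 ^ i := by simp [lm]

lemma lm_nonneg (Λ i : ℕ) : 0 ≤ lm Λ i := by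
  unfold lm; split_ifs
  · exact le_rfl
  · positivity

lemma lm_gap (Λ : ℕ) {i j : ℕ} (h : j < i) : 4 * lm Λ j ≤ lm Λ i ∧ (Λ : ℤ) ≤ lm Λ i - lm Λ j ∧ (Λ : ℤ) ≤ lm Λ i := by
  obtain ⟨i, rfl⟩ := Nat.exists_eq_succ_of_ne_zero (show i ≠ 0 by omega)
  rw [Nat.succ_eq_add_one, lm_succ]
  have h4 : (1 : ℤ) ≤ 4 ^ i := one_le_pow₀ (by norm_num)
  have hΛ : (0 : ℤ) ≤ Λ := Nat.cast_nonneg _
  rcases Nat.eq_zero_or_pos j with rfl | hj
  · rw [lm_zero]
    refine ⟨by positivity, by nlinarith, by nlinarith⟩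
  · obtain ⟨j, rfl⟩ := Nat.exists_eq_succ_of_ne_zero hj.ne'
    rw [Nat.succ_eq_add_one, lm_succ]
    have hij : j + 1 ≤ i := by omega
    have h5 : (4 : ℤ) * 4 ^ j ≤ 4 ^ i := by
      rw [← pow_succ']; exact pow_le_pow_right₀ (by norm_num) hij
    have h6 : (Λ : ℤ) * (4 * 4 ^ j) ≤ Λ * 4 ^ i := mul_le_mul_of_nonneg_left h5 hΛ
    have h7 : (1 : ℤ) ≤ 4 ^ j := one_le_pow₀ (by norm_num)
    have h8 : (Λ : ℤ) * 1 ≤ Λ * 4 ^ j := mul_le_mul_of_nonneg_left h7 hΛ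
    have h9 : (0 : ℤ) ≤ Λ * 4 ^ j := by positivity
    refine ⟨by nlinarith, by nlinarith, by nlinarith⟩

lemma geo (Λ : ℕ) (J : ℕ) (X : ℝ) (hX : 0 ≤ X) :
    ∑ i ∈ range J, (if ((Λ : ℝ) * 4 ^ i) ≤ X then (Λ : ℝ) * 4 ^ i else 0) ≤ 2 * X := by
  have h1 : ∀ J : ℕ, ∑ i ∈ range J, (Λ : ℝ) * 4 ^ i ≤ (Λ : ℝ) * 4 ^ J := by
    intro J
    induction J with
    | zero => simp
    | succ J ih =>
      rw [sum_range_succ, pow_succ]
      have : 0 ≤ (Λ : ℝ) * 4 ^ J := by positivity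
      nlinarith
  induction J with
  | zero => simpa using hX
  | succ J ih =>
    rw [sum_range_succ]
    by_cases h : (Λ : ℝ) * 4 ^ J ≤ X
    · rw [if_pos h]
      have h2 : ∑ i ∈ range J, (if ((Λ : ℝ) * 4 ^ i) ≤ X then (Λ : ℝ) * 4 ^ i else 0) ≤
          ∑ i ∈ range J, (Λ : ℝ) * 4 ^ i := by
        refine sum_le_sum fun i _ => ?_
        split_ifs
        · exact le_rfl
        · positivity
      have := h1 J
      linarith
    · rw [if_neg h, add_zero]; exact ih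

/-- the new function -/
noncomputable def nh (J : ℕ) (c : ℕ → ℝ) (Λ : ℕ) (h : ℤ → ℝ) (n : ℤ) : ℝ :=
  1 / 2 * ∑ i ∈ range (J + 1), ∑ j ∈ range (J + 1), c i * c j * h (n - (lm Λ i - lm Λ j))

/-- the new part on nonnegative integers -/
noncomputable def new (J : ℕ) (c : ℕ → ℝ) (Λ : ℕ) (h : ℤ → ℝ) (n : ℤ) : ℝ :=
  1 / 2 * ∑ i ∈ range (J + 1), ∑ j ∈ range i, c i * c j * h (n - (lm Λ i - lm Λ j))

section step

variable {β : ℝ} {M : ℕ} {h : ℤ → ℝ} (hs : St β M h) {J : ℕ} {c : ℕ → ℝ} (hc0 : c 0 = 1) (hc : ∀ i, 0 ≤ c i)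
  (hc2 : ∑ i ∈ range J, c (i + 1) ^ 2 = 1) {Λ : ℕ} (hΛ : 4 * M < Λ)

include hs hc0 hc2 hΛ in
/-- decomposition on nonnegative integers -/
lemma nh_eq {n : ℤ} (hn : 0 ≤ n) : nh J c Λ h n = h n + new J c Λ h n := by
  have h1 : ∀ i ∈ range (J + 1), ∑ j ∈ range (J + 1), c i * c j * h (n - (lm Λ i - lm Λ j)) =
      (∑ j ∈ range i, c i * c j * h (n - (lm Λ i - lm Λ j))) + c i ^ 2 * h n := by
    intro i hi
    rw [← sum_subset (Finset.range_subset_range.2 (mem_range.1 hi)), sum_range_succ]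
    · rw [sub_self, sub_zero, sq]
    · intro j _ hj
      rw [mem_range] at hj
      have h2 := (lm_gap Λ (show i < j by omega)).2.1
      rw [hs.supp, mul_zero]
      rw [lt_abs]; left
      have : (4 * (M : ℤ)) < Λ := by exact_mod_cast hΛ
      omega
  unfold nh new
  rw [sum_congr rfl h1, sum_add_distrib, ← sum_mul, sum_range_succ' (fun i => c i ^ 2), hc2, hc0]
  ring

include hs hΛ in
lemma new_zero {n : ℤ} (hn : n ≤ M) : new J c Λ h n = 0 := by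
  unfold new
  rw [mul_eq_zero]; right
  refine sum_eq_zero fun i _ => sum_eq_zero fun j hj => ?_
  have h2 := (lm_gap Λ (mem_range.1 hj)).2.1
  rw [hs.supp, mul_zero]
  rw [lt_abs]; right
  have : (4 * (M : ℤ)) < Λ := by exact_mod_cast hΛ
  have : (0 : ℤ) ≤ M := Nat.cast_nonneg _
  omega

include hs hc in
lemma new_nonneg (n : ℤ) : 0 ≤ new J c Λ h n := by
  unfold new
  refine mul_nonneg (by norm_num) (sum_nonneg fun i _ => sum_nonneg fun j _ => ?_)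
  exact mul_nonneg (mul_nonneg (hc i) (hc j)) (hs.nonneg _)

include hs hc in
lemma nh_nonneg (n : ℤ) : 0 ≤ nh J c Λ h n := by
  unfold nh
  refine mul_nonneg (by norm_num) (sum_nonneg fun i _ => sum_nonneg fun j _ => ?_)
  exact mul_nonneg (mul_nonneg (hc i) (hc j)) (hs.nonneg _)

include hs in
lemma nh_symm (n : ℤ) : nh J c Λ h (-n) = nh J c Λ h n := by
  unfold nh
  rw [sum_comm]
  congr 1
  refine sum_congr rfl fun i _ => sum_congr rfl fun j _ => ?_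
  rw [← hs.symm]
  have : -(-n - (lm Λ j - lm Λ i)) = n - (lm Λ i - lm Λ j) := by ring
  rw [this]
  ring

lemma lm_le {i : ℕ} (hi : i ≤ J) : lm Λ i ≤ Λ * 4 ^ J := by
  unfold lm
  split_ifs
  · positivity
  · have : (4 : ℤ) ^ (i - 1) ≤ 4 ^ J := pow_le_pow_right₀ (by norm_num) (by omega)
    exact mul_le_mul_of_nonneg_left this (Nat.cast_nonneg _)

include hs in
lemma nh_supp (n : ℤ) (hn : ((M + Λ * 4 ^ J : ℕ) : ℤ) < |n|) : nh J c Λ h n = 0 := by
  unfold nh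
  rw [mul_eq_zero]; right
  refine sum_eq_zero fun i hi => sum_eq_zero fun j hj => ?_
  rw [hs.supp, mul_zero]
  have h1 := lm_le (Λ := Λ) (Nat.lt_succ_iff.1 (mem_range.1 hi))
  have h2 := lm_le (Λ := Λ) (Nat.lt_succ_iff.1 (mem_range.1 hj))
  have h3 := lm_nonneg Λ i
  have h4 := lm_nonneg Λ j
  push_cast at hn
  rw [lt_abs] at hn ⊢
  rcases hn with hn | hn
  · left; omega
  · right; omega

include hs in
lemma nh_pos (z : ℂ) (hz : ‖z‖ = 1) : ∃ t : ℝ, 0 ≤ t ∧ ev (nh J c Λ h) z = t := by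
  have hz0 : z ≠ 0 := by intro h0; rw [h0, norm_zero] at hz; exact zero_ne_one hz
  obtain ⟨t, ht, hev⟩ := hs.pos z hz
  set q : ℂ := ∑ i ∈ range (J + 1), (c i : ℂ) * z ^ lm Λ i with hq
  have h1 : ev (nh J c Λ h) z = 1 / 2 * (q * (starRingEnd ℂ) q) * ev h z := by
    have h2 : ∀ n : ℤ, (nh J c Λ h n : ℂ) * z ^ n = ∑ i ∈ range (J + 1), ∑ j ∈ range (J + 1),
        1 / 2 * (c i : ℂ) * (c j : ℂ) * ((h (n - (lm Λ i - lm Λ j)) : ℂ) * z ^ n) := by
      intro n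
      unfold nh
      push_cast
      rw [mul_sum, sum_mul]
      refine sum_congr rfl fun i _ => ?_
      rw [mul_sum, sum_mul]
      exact sum_congr rfl fun j _ => by ring
    unfold ev
    rw [tsum_congr h2, Summable.tsum_finsetSum]
    · rw [hq, map_sum, sum_mul_sum, mul_sum, sum_mul]
      refine sum_congr rfl fun i _ => ?_
      rw [Summable.tsum_finsetSum, mul_sum, sum_mul]
      · refine sum_congr rfl fun j _ => ?_
        rw [tsum_mul_left, ev_shift h hz0]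
        have h3 : (starRingEnd ℂ) ((c j : ℂ) * z ^ lm Λ j) = (c j : ℂ) * z ^ (-lm Λ j) := by
          rw [map_mul, Complex.conj_ofReal, map_zpow₀, zpow_neg, ← inv_zpow]
          congr 2
          rw [Complex.inv_def, Complex.normSq_eq_norm_sq, hz]
          simp
        rw [h3, zpow_sub₀ hz0, zpow_neg]
        unfold ev
        ring
      · intro j _
        exact (hs.summable z _).mul_left _
    · intro i _
      exact summable_sum fun j _ => (hs.summable z _).mul_left _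
  refine ⟨1 / 2 * ‖q‖ ^ 2 * t, by positivity, ?_⟩
  rw [h1, hev, Complex.mul_conj, Complex.normSq_eq_norm_sq]
  push_cast
  ring

include hs hΛ hc in
lemma new_bl {δ : ℝ} (hδ : 0 ≤ δ) (hcs : ∀ i, c (i + 1) * ∑ j ∈ range (i + 1), c j ≤ δ) (N : ℕ) :
    ∑ n ∈ range (N + 1), (n : ℝ) * new J c Λ h n ≤ 4 * (∑ m ∈ Finset.Icc (-(M : ℤ)) M, h m) * δ * N := by
  set Hs := ∑ m ∈ Finset.Icc (-(M : ℤ)) M, h m with hHs
  have hH0 : 0 ≤ Hs := sum_nonneg fun m _ => hs.nonneg m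
  have hΛ' : (4 * (M : ℤ)) < Λ := by exact_mod_cast hΛ
  have hM0 : (0 : ℤ) ≤ M := Nat.cast_nonneg _
  have inner : ∀ i j, j < i + 1 → ∑ n ∈ range (N + 1), (n : ℝ) * h ((n : ℤ) - (lm Λ (i + 1) - lm Λ j)) ≤
      (if (Λ : ℝ) * 4 ^ i ≤ 2 * N then (Λ : ℝ) * 4 ^ i else 0) * (2 * Hs) := by
    intro i j hij
    obtain ⟨g1, g2, g3⟩ := lm_gap Λ hij
    have g4 := lm_nonneg Λ j
    have hl : lm Λ (i + 1) = Λ * 4 ^ i := lm_succ Λ i
    have hlR : ((lm Λ (i + 1) : ℤ) : ℝ) = Λ * 4 ^ i := by rw [hl]; push_cast; ring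
    split_ifs with hN
    · have h1 : ∀ n ∈ range (N + 1), (n : ℝ) * h ((n : ℤ) - (lm Λ (i + 1) - lm Λ j)) ≤
          (2 * ((Λ : ℝ) * 4 ^ i)) * h ((n : ℤ) - (lm Λ (i + 1) - lm Λ j)) := by
        intro n _
        by_cases hz : (M : ℤ) < |(n : ℤ) - (lm Λ (i + 1) - lm Λ j)|
        · rw [hs.supp _ hz]; simp
        · push Not at hz
          refine mul_le_mul_of_nonneg_right ?_ (hs.nonneg _)
          rw [abs_le] at hz
          have h2 : (n : ℤ) ≤ 2 * lm Λ (i + 1) := by omega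
          have h3 : ((n : ℤ) : ℝ) ≤ ((2 * lm Λ (i + 1) : ℤ) : ℝ) := by exact_mod_cast h2
          push_cast at h3
          rw [hlR] at h3
          exact h3
      refine (sum_le_sum h1).trans ?_
      rw [← mul_sum]
      have h2 : ∑ n ∈ range (N + 1), h ((n : ℤ) - (lm Λ (i + 1) - lm Λ j)) ≤ Hs := by
        have := hs.sum_le ((range (N + 1)).image fun n : ℕ => (n : ℤ) - (lm Λ (i + 1) - lm Λ j))
        rw [sum_image (fun a _ b _ hab => by omega)] at this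
        exact this
      have h3 : 0 ≤ (Λ : ℝ) * 4 ^ i := by positivity
      nlinarith
    · rw [zero_mul]
      refine le_of_eq (sum_eq_zero fun n hn => ?_)
      rw [hs.supp, mul_zero]
      rw [lt_abs]; right
      push Not at hN
      rw [← hlR] at hN
      have h2 : (2 * (N : ℤ)) < lm Λ (i + 1) := by exact_mod_cast hN
      have h3 := mem_range.1 hn
      omega
  have e1 : ∑ n ∈ range (N + 1), (n : ℝ) * new J c Λ h n =
      1 / 2 * ∑ i ∈ range J, ∑ j ∈ range (i + 1), c (i + 1) * c j *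
        ∑ n ∈ range (N + 1), (n : ℝ) * h ((n : ℤ) - (lm Λ (i + 1) - lm Λ j)) := by
    have e0 : ∀ n ∈ range (N + 1), (n : ℝ) * new J c Λ h n = ∑ i ∈ range J, ∑ j ∈ range (i + 1),
        1 / 2 * (c (i + 1) * c j * ((n : ℝ) * h ((n : ℤ) - (lm Λ (i + 1) - lm Λ j)))) := by
      intro n _
      unfold new
      rw [sum_range_succ']
      simp only [range_zero, sum_empty, add_zero]
      rw [mul_sum, mul_sum]
      refine sum_congr rfl fun i _ => ?_
      rw [mul_sum, mul_sum]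
      exact sum_congr rfl fun j _ => by ring
    rw [sum_congr rfl e0, sum_comm, mul_sum]
    refine sum_congr rfl fun i _ => ?_
    rw [sum_comm, mul_sum]
    refine sum_congr rfl fun j _ => ?_
    rw [mul_sum, mul_sum]
  rw [e1]
  have e2 : ∀ i ∈ range J, ∑ j ∈ range (i + 1), c (i + 1) * c j *
        ∑ n ∈ range (N + 1), (n : ℝ) * h ((n : ℤ) - (lm Λ (i + 1) - lm Λ j)) ≤
      (if (Λ : ℝ) * 4 ^ i ≤ 2 * N then (Λ : ℝ) * 4 ^ i else 0) * (2 * Hs * δ) := by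
    intro i _
    have h1 : ∀ j ∈ range (i + 1), c (i + 1) * c j *
        ∑ n ∈ range (N + 1), (n : ℝ) * h ((n : ℤ) - (lm Λ (i + 1) - lm Λ j)) ≤
        c (i + 1) * c j * ((if (Λ : ℝ) * 4 ^ i ≤ 2 * N then (Λ : ℝ) * 4 ^ i else 0) * (2 * Hs)) := fun j hj =>
      mul_le_mul_of_nonneg_left (inner i j (mem_range.1 hj)) (mul_nonneg (hc _) (hc _))
    refine (sum_le_sum h1).trans ?_
    rw [← sum_mul, ← mul_sum]
    have h2 : 0 ≤ (if (Λ : ℝ) * 4 ^ i ≤ 2 * N then (Λ : ℝ) * 4 ^ i else 0) * (2 * Hs) := by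
      refine mul_nonneg ?_ (by positivity)
      split_ifs <;> positivity
    calc _ ≤ δ * ((if (Λ : ℝ) * 4 ^ i ≤ 2 * N then (Λ : ℝ) * 4 ^ i else 0) * (2 * Hs)) :=
          mul_le_mul_of_nonneg_right (hcs i) h2
      _ = _ := by ring
  have e3 := sum_le_sum e2
  rw [← sum_mul] at e3
  have e4 := geo Λ J (2 * N) (by positivity)
  have e5 := mul_le_mul_of_nonneg_right e4 (show 0 ≤ 2 * Hs * δ by positivity)
  linarith

end step

/-- one step of the construction -/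
theorem step {β : ℝ} {M : ℕ} {h : ℤ → ℝ} (hs : St β M h) {ε : ℝ} (hε : 0 < ε) :
    ∃ M' h', St (β + ε) M' h' ∧ M < M' ∧ (∀ n : ℕ, n ≤ M → h' n = h n) ∧
      1 / 4 ≤ ∑ n ∈ Finset.Ioc M M', (h' n) ^ 2 := by
  set Hs := ∑ m ∈ Finset.Icc (-(M : ℤ)) M, h m with hHs
  have hH1 : 0 < Hs := by
    have h1 : (0 : ℤ) ∈ Finset.Icc (-(M : ℤ)) M := by rw [Finset.mem_Icc]; omega
    have h2 := single_le_sum (f := h) (fun m _ => hs.nonneg m) h1
    rw [hs.one] at h2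
    linarith
  obtain ⟨J, c, hc0, hc, hc2, hcs⟩ := exists_weights (ε / (4 * Hs)) (by positivity)
  set Λ := 4 * M + 1 with hΛdef
  have hΛ : 4 * M < Λ := by omega
  have hJ : 0 < J := by
    rcases Nat.eq_zero_or_pos J with h0 | h0
    · rw [h0, range_zero, sum_empty] at hc2; exact absurd hc2 zero_ne_one
    · exact h0
  refine ⟨M + Λ * 4 ^ J, nh J c Λ h, ⟨fun n => nh_nonneg hs hc n, ?_, fun n => nh_symm hs n, fun n hn => nh_supp hs n hn,
    fun z hz => nh_pos hs z hz, ?_⟩, ?_, ?_, ?_⟩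
  · rw [nh_eq hs hc0 hc2 hΛ le_rfl, new_zero hs hΛ (Nat.cast_nonneg _), hs.one, add_zero]
  · intro N
    have h1 : ∀ n ∈ range (N + 1), (n : ℝ) * nh J c Λ h n = (n : ℝ) * h n + (n : ℝ) * new J c Λ h n := by
      intro n _
      rw [nh_eq hs hc0 hc2 hΛ (Nat.cast_nonneg _)]; ring
    rw [sum_congr rfl h1, sum_add_distrib]
    have h2 := hs.bl N
    have h3 := new_bl hs hc hΛ (J := J) (show 0 ≤ ε / (4 * Hs) by positivity) hcs N
    have h4 : 4 * Hs * (ε / (4 * Hs)) * N = ε * N := by field_simp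
    rw [← hHs, h4] at h3
    linarith
  · have : 0 < Λ * 4 ^ J := by positivity
    omega
  · intro n hn
    rw [nh_eq hs hc0 hc2 hΛ (Nat.cast_nonneg _), new_zero hs hΛ (by exact_mod_cast hn), add_zero]
  · -- the frequencies `Λ 4^i`
    have h1 : ∀ i ∈ range J, c (i + 1) / 2 ≤ nh J c Λ h ((Λ * 4 ^ i : ℕ) : ℤ) := by
      intro i hi
      rw [nh_eq hs hc0 hc2 hΛ (Nat.cast_nonneg _)]
      have h2 : c (i + 1) / 2 ≤ new J c Λ h ((Λ * 4 ^ i : ℕ) : ℤ) := by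
        unfold new
        have h3 : c (i + 1) * c 0 * h (((Λ * 4 ^ i : ℕ) : ℤ) - (lm Λ (i + 1) - lm Λ 0)) ≤
            ∑ j ∈ range (i + 1), c (i + 1) * c j * h (((Λ * 4 ^ i : ℕ) : ℤ) - (lm Λ (i + 1) - lm Λ j)) :=
          single_le_sum (f := fun j => c (i + 1) * c j * h (((Λ * 4 ^ i : ℕ) : ℤ) - (lm Λ (i + 1) - lm Λ j)))
            (fun j _ => mul_nonneg (mul_nonneg (hc _) (hc _)) (hs.nonneg _)) (mem_range.2 (Nat.succ_pos i))
        have h4 : ∑ j ∈ range (i + 1), c (i + 1) * c j * h (((Λ * 4 ^ i : ℕ) : ℤ) - (lm Λ (i + 1) - lm Λ j)) ≤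
            ∑ i' ∈ range (J + 1), ∑ j ∈ range i', c i' * c j * h (((Λ * 4 ^ i : ℕ) : ℤ) - (lm Λ i' - lm Λ j)) :=
          single_le_sum (f := fun i' => ∑ j ∈ range i', c i' * c j * h (((Λ * 4 ^ i : ℕ) : ℤ) - (lm Λ i' - lm Λ j)))
            (fun i' _ => sum_nonneg fun j _ => mul_nonneg (mul_nonneg (hc _) (hc _)) (hs.nonneg _))
            (mem_range.2 (Nat.succ_lt_succ (mem_range.1 hi)))
        have h5 : ((Λ * 4 ^ i : ℕ) : ℤ) - (lm Λ (i + 1) - lm Λ 0) = 0 := by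
          rw [lm_succ, lm_zero]; push_cast; ring
        rw [h5, hs.one, hc0] at h3
        linarith
      linarith [hs.nonneg ((Λ * 4 ^ i : ℕ) : ℤ)]
    have h2 : ∑ n ∈ ((range J).image (fun i : ℕ => Λ * 4 ^ i) : Finset ℕ), (nh J c Λ h ((n : ℕ) : ℤ)) ^ 2 ≤
        ∑ n ∈ Finset.Ioc M (M + Λ * 4 ^ J), (nh J c Λ h (n : ℤ)) ^ 2 := by
      apply sum_le_sum_of_subset_of_nonneg
      · intro n hn
        obtain ⟨i, hi, rfl⟩ := mem_image.1 hn
        rw [Finset.mem_Ioc]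
        have h3 : 1 ≤ 4 ^ i := Nat.one_le_pow _ _ (by norm_num)
        have h4 : 4 ^ i ≤ 4 ^ J := Nat.pow_le_pow_right (by norm_num) (mem_range.1 hi).le
        constructor
        · nlinarith
        · nlinarith
      · intro n _ _; positivity
    refine le_trans ?_ h2
    rw [sum_image (fun a _ b _ hab => by
      have h3 : 4 ^ a = 4 ^ b := Nat.eq_of_mul_eq_mul_left (by omega) hab
      exact Nat.pow_right_injective (le_refl 2 |>.trans (by norm_num)) h3)]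
    calc (1 : ℝ) / 4 = ∑ i ∈ range J, (c (i + 1) / 2) ^ 2 := by
          simp_rw [div_pow]
          rw [← sum_div, hc2]; norm_num
      _ ≤ _ := sum_le_sum fun i hi => pow_le_pow_left₀ (by have := hc (i + 1); positivity) (h1 i hi) 2

end Pool.Agent.H7.Bloch
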