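import Pool.Agent.H7.Bloch.Conv

set_option autoImplicit false

open Finset Filter Topology

namespace Pool.Agent.H7.Bloch

lemma st_zero : St 0 0 (fun n : ℤ => if n = 0 then (1 : ℝ) else 0) := by
  refine ⟨fun n => ?_, if_pos rfl, fun n => ?_, fun n hn => ?_, fun z hz => ⟨1, zero_le_one, ?_⟩, fun N => ?_⟩
  · split_ifs <;> norm_num
  · simp only [neg_eq_zero]
  · rw [if_neg]
    rintro rfl
    simp at hn
  · unfold ev
    rw [tsum_eq_single 0]
    · simp
    · intro n hn
      simp [hn]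
  · rw [zero_mul]
    refine le_of_eq (sum_eq_zero fun n _ => ?_)
    by_cases h : n = 0
    · subst h; simp
    · rw [if_neg (by exact_mod_cast h), mul_zero]

/-- the coefficient sequence -/
theorem exists_coeff : ∃ (a : ℕ → ℝ) (M : ℕ → ℕ), (∀ n, 0 ≤ a n) ∧ a 0 = 1 ∧ StrictMono M ∧
    (∀ N : ℕ, ∑ n ∈ range (N + 1), (n : ℝ) * a n ≤ N) ∧
    (∀ k, 1 / 4 ≤ ∑ n ∈ Finset.Ioc (M k) (M (k + 1)), a n ^ 2) ∧
    (∀ k, ∃ h : ℤ → ℝ, St 1 (M k) h ∧ ∀ n ≤ M k, h n = a n) := by
  choose! Mn hn h1 h2 h3 h4 using fun (β : ℝ) (M : ℕ) (h : ℤ → ℝ) (hs : St β M h) (ε : ℝ) (hε : 0 < ε) => step hs hε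
  -- states
  let s : ℕ → ℕ × (ℤ → ℝ) := fun k => Nat.rec (0, fun n : ℤ => if n = 0 then (1 : ℝ) else 0)
    (fun k p => (Mn (1 - (1 / 2) ^ k) p.1 p.2 ((1 / 2) ^ (k + 1)), hn (1 - (1 / 2) ^ k) p.1 p.2 ((1 / 2) ^ (k + 1)))) k
  have hs0 : s 0 = (0, fun n : ℤ => if n = 0 then (1 : ℝ) else 0) := rfl
  have hs1 : ∀ k, s (k + 1) = (Mn (1 - (1 / 2) ^ k) (s k).1 (s k).2 ((1 / 2) ^ (k + 1)),
    hn (1 - (1 / 2) ^ k) (s k).1 (s k).2 ((1 / 2) ^ (k + 1))) := fun k => rfl
  have hpos : ∀ k : ℕ, (0 : ℝ) < (1 / 2) ^ (k + 1) := fun k => by positivity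
  have hSt : ∀ k, St (1 - (1 / 2) ^ k) (s k).1 (s k).2 := by
    intro k
    induction k with
    | zero => rw [hs0, pow_zero, sub_self]; exact st_zero
    | succ k ih =>
      rw [hs1]
      have := h1 _ _ _ ih _ (hpos k)
      have e : (1 : ℝ) - (1 / 2) ^ k + (1 / 2) ^ (k + 1) = 1 - (1 / 2) ^ (k + 1) := by rw [pow_succ]; ring
      rw [e] at this
      exact this
  have hM : StrictMono fun k => (s k).1 := strictMono_nat_of_lt_succ fun k => by
    rw [hs1]; exact h2 _ _ _ (hSt k) _ (hpos k)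
  have hag1 : ∀ k, ∀ n : ℕ, n ≤ (s k).1 → (s (k + 1)).2 n = (s k).2 n := fun k n hn' => by
    rw [hs1]; exact h3 _ _ _ (hSt k) _ (hpos k) n hn'
  have hag : ∀ k l, k ≤ l → ∀ n : ℕ, n ≤ (s k).1 → (s l).2 n = (s k).2 n := by
    intro k l hkl
    induction l, hkl using Nat.le_induction with
    | base => intro n _; rfl
    | succ l hkl ih =>
      intro n hn'
      rw [hag1 l n (hn'.trans (hM.monotone hkl)), ih n hn']
  have hid : ∀ n, n ≤ (s n).1 := fun n => hM.id_le n
  have ha : ∀ k, ∀ n : ℕ, n ≤ (s k).1 → (s n).2 n = (s k).2 n := by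
    intro k n hn'
    rcases le_total k n with h | h
    · exact hag k n h n hn'
    · exact (hag n k h n (hid n)).symm
  have hSt1 : ∀ k, St 1 (s k).1 (s k).2 := by
    intro k
    have := hSt k
    refine ⟨this.nonneg, this.one, this.symm, this.supp, this.pos, fun N => (this.bl N).trans ?_⟩
    have h5 : (0 : ℝ) ≤ (1 / 2) ^ k := by positivity
    exact mul_le_mul_of_nonneg_right (by linarith) (Nat.cast_nonneg _)
  refine ⟨fun n => (s n).2 n, fun k => (s k).1, fun n => (hSt n).nonneg _, (hSt 0).one, hM, ?_, ?_, ?_⟩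
  · intro N
    have h5 := (hSt1 N).bl N
    rw [one_mul] at h5
    refine le_trans (le_of_eq ?_) h5
    refine sum_congr rfl fun n hn' => ?_
    dsimp only
    rw [ha N n ((Nat.lt_succ_iff.1 (mem_range.1 hn')).trans (hid N))]
  · intro k
    have h5 := h4 _ _ _ (hSt k) _ (hpos k)
    have e : Mn (1 - (1 / 2) ^ k) (s k).1 (s k).2 ((1 / 2) ^ (k + 1)) = (s (k + 1)).1 := by rw [hs1]
    have e2 : hn (1 - (1 / 2) ^ k) (s k).1 (s k).2 ((1 / 2) ^ (k + 1)) = (s (k + 1)).2 := by rw [hs1]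
    rw [e, e2] at h5
    refine le_trans h5 (le_of_eq ?_)
    refine sum_congr rfl fun n hn' => ?_
    dsimp only
    rw [ha (k + 1) n (Finset.mem_Ioc.1 hn').2]
  · intro k
    exact ⟨(s k).2, hSt1 k, fun n hn' => (ha k n hn').symm⟩

/-- Abel summation -/
lemma abel (u : ℕ → ℝ) (hu : ∀ K : ℕ, ∑ k ∈ range K, u k ≤ K) {r : ℝ} (h0 : 0 ≤ r) (h1 : r ≤ 1) (K : ℕ) :
    ∑ k ∈ range K, u k * r ^ k ≤ ∑ k ∈ range K, r ^ k := by
  have key : ∑ k ∈ range K, u k * r ^ k ≤ ∑ k ∈ range K, r ^ k - (K - ∑ k ∈ range K, u k) * r ^ K := by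
    induction K with
    | zero => simp
    | succ K ih =>
      rw [sum_range_succ, sum_range_succ (fun k => r ^ k)]
      have h2 := hu (K + 1)
      have h3 : r ^ (K + 1) ≤ r ^ K := pow_le_pow_of_le_one h0 h1 (Nat.le_succ K)
      have h4 : 0 ≤ ((K + 1 : ℕ) : ℝ) - ∑ k ∈ range (K + 1), u k := by linarith
      have h5 := mul_le_mul_of_nonneg_left h3 h4
      rw [sum_range_succ] at h5 ⊢
      push_cast at h5 ⊢
      linarith
  have h2 : 0 ≤ (K - ∑ k ∈ range K, u k) * r ^ K := mul_nonneg (by linarith [hu K]) (by positivity)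
  linarith

lemma re_circle {M : ℕ} {h : ℤ → ℝ} (hs : St 1 M h) {z : ℂ} (hz : ‖z‖ = 1) :
    1 / 2 ≤ (∑ n ∈ range (M + 1), (h n : ℂ) * z ^ n).re := by
  obtain ⟨t, ht, hev⟩ := hs.pos z hz
  have hz0 : z ≠ 0 := by intro h0; rw [h0, norm_zero] at hz; exact zero_ne_one hz
  have h1 : HasSum (fun n : ℕ => (h (n : ℤ) : ℂ) * z ^ (n : ℤ)) (∑ n ∈ range (M + 1), (h n : ℂ) * z ^ n) := by
    have := hasSum_sum_of_ne_finset_zero (L := SummationFilter.unconditional ℕ) (f := fun n : ℕ => (h (n : ℤ) : ℂ) * z ^ (n : ℤ)) (s := range (M + 1)) (by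
      intro n hn
      rw [hs.supp]
      · simp
      · rw [mem_range] at hn
        rw [Nat.abs_cast]
        exact_mod_cast (by omega : M < n))
    simpa only [zpow_natCast] using this
  have h2 : HasSum (fun n : ℕ => (h (-((n : ℤ) + 1)) : ℂ) * z ^ (-((n : ℤ) + 1)))
      ((starRingEnd ℂ) (∑ n ∈ range (M + 1), (h n : ℂ) * z ^ n) - 1) := by
    have h3 := hasSum_sum_of_ne_finset_zero (L := SummationFilter.unconditional ℕ) (f := fun n : ℕ => (h (-((n : ℤ) + 1)) : ℂ) * z ^ (-((n : ℤ) + 1))) (s := range M) (by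
      intro n hn
      rw [hs.supp]
      · simp
      · rw [mem_range] at hn
        rw [abs_neg, lt_abs]
        left
        omega)
    convert h3 using 1
    rw [map_sum, sum_range_succ']
    simp only [Nat.cast_zero, hs.one, pow_zero, Complex.ofReal_one, mul_one, map_one, add_sub_cancel_right]
    refine sum_congr rfl fun n _ => ?_
    rw [map_mul, Complex.conj_ofReal, hs.symm, map_pow, zpow_neg, ← inv_zpow, Complex.inv_def,
      Complex.normSq_eq_norm_sq, hz]
    simp only [one_pow, inv_one, Complex.ofReal_one, mul_one, Nat.cast_add, Nat.cast_one]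
    rw [← zpow_natCast]
    push_cast
    rfl
  have h3 : HasSum (fun n : ℤ => (h n : ℂ) * z ^ n) (∑ n ∈ range (M + 1), (h n : ℂ) * z ^ n +
      ((starRingEnd ℂ) (∑ n ∈ range (M + 1), (h n : ℂ) * z ^ n) - 1)) := HasSum.of_nat_of_neg_add_one h1 h2
  have h4 : ev h z = _ := h3.tsum_eq
  rw [hev] at h4
  have h5 := congrArg Complex.re h4
  simp only [Complex.ofReal_re, Complex.add_re, Complex.sub_re, Complex.conj_re, Complex.one_re] at h5
  linarith

lemma re_disc {M : ℕ} {h : ℤ → ℝ} (hs : St 1 M h) {z : ℂ} (hz : ‖z‖ < 1) :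
    1 / 2 ≤ (∑ n ∈ range (M + 1), (h n : ℂ) * z ^ n).re := by
  have h1 : ‖Complex.exp (-∑ n ∈ range (M + 1), (h n : ℂ) * z ^ n)‖ ≤ Real.exp (-(1 / 2)) := by
    refine Complex.norm_le_of_forall_mem_frontier_norm_le (f := fun z => Complex.exp (-∑ n ∈ range (M + 1), (h n : ℂ) * z ^ n))
      (U := Metric.ball (0 : ℂ) 1) Metric.isBounded_ball ?_ ?_ ?_
    · apply Differentiable.diffContOnCl
      fun_prop
    · intro w hw
      rw [frontier_ball _ one_ne_zero, mem_sphere_zero_iff_norm] at hw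
      rw [Complex.norm_exp, Real.exp_le_exp, Complex.neg_re]
      have := re_circle hs hw
      linarith
    · apply subset_closure
      rwa [mem_ball_zero_iff]
  rw [Complex.norm_exp, Real.exp_le_exp, Complex.neg_re] at h1
  linarith

/-- the counterexample -/
theorem counterexample : ∃ f : ℂ → ℂ, DifferentiableOn ℂ f (Metric.ball (0 : ℂ) 1) ∧ f 0 = 1 ∧
      (∀ z ∈ Metric.ball (0 : ℂ) 1, 0 < (f z).re) ∧
      (∃ C : ℝ, ∀ z ∈ Metric.ball (0 : ℂ) 1, (1 - ‖z‖ ^ 2) * ‖deriv f z‖ ≤ C) ∧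
      ∃ a : ℕ → ℝ,
        (∀ n : ℕ, 1 ≤ n → 0 ≤ a n ∧ iteratedDeriv n f 0 = ((n.factorial : ℂ) * (a n : ℂ))) ∧
        ¬ Summable (fun n : ℕ => a n ^ 2) := by
  obtain ⟨a, M, ha0, ha1, hM, hbl, hbig, hst⟩ := exists_coeff
  have hale : ∀ n, a n ≤ 1 := by
    intro n
    rcases Nat.eq_zero_or_pos n with rfl | hn
    · exact ha1.le
    · have h1 := hbl n
      have h2 := single_le_sum (f := fun n : ℕ => (n : ℝ) * a n) (fun k _ => mul_nonneg (Nat.cast_nonneg k) (ha0 k))
        (mem_range.2 (Nat.lt_succ_self n))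
      have h3 : (n : ℝ) * a n ≤ n := h2.trans h1
      have h4 : (0 : ℝ) < n := by exact_mod_cast hn
      by_contra hcon
      push Not at hcon
      nlinarith
  set p : FormalMultilinearSeries ℂ ℂ ℂ := FormalMultilinearSeries.ofScalars ℂ (fun n => (a n : ℂ)) with hp
  have hrad : (1 : ENNReal) ≤ p.radius := by
    have := p.le_radius_of_bound 1 (r := 1) (fun n => by
      rw [hp, FormalMultilinearSeries.ofScalars_norm, Complex.norm_real, Real.norm_of_nonneg (ha0 n)]
      simpa using hale n)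
    simpa using this
  have hf : HasFPowerSeriesOnBall p.sum p 0 1 :=
    (p.hasFPowerSeriesOnBall (lt_of_lt_of_le one_pos hrad)).mono one_pos hrad
  have hball : Metric.eball (0 : ℂ) 1 = Metric.ball 0 1 := by
    rw [← ENNReal.coe_one, Metric.eball_coe]; simp
  have hps : ∀ n, ∀ z : ℂ, p.partialSum n z = ∑ k ∈ range n, (a k : ℂ) * z ^ k := by
    intro n z
    unfold FormalMultilinearSeries.partialSum
    refine sum_congr rfl fun k _ => ?_
    rw [hp, FormalMultilinearSeries.ofScalars_apply_eq, smul_eq_mul]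
  have hconv : TendstoLocallyUniformlyOn (fun n (z : ℂ) => ∑ k ∈ range n, (a k : ℂ) * z ^ k) p.sum atTop
      (Metric.ball (0 : ℂ) 1) := by
    have := hf.tendstoLocallyUniformlyOn'
    rw [hball] at this
    refine this.congr (fun n z _ => ?_)
    simp only [sub_zero]
    exact hps n z
  refine ⟨p.sum, ?_, ?_, ?_, ⟨2, ?_⟩, a, ?_, ?_⟩
  · have := hf.differentiableOn
    rwa [hball] at this
  · have h1 := hf.coeff_zero (fun _ => 0)
    rw [← h1, hp, FormalMultilinearSeries.ofScalars_apply_eq]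
    simp [ha1]
  · intro z hz
    have h1 := (hconv.tendsto_at hz)
    have h2 : Tendsto (fun k => M k + 1) atTop atTop :=
      tendsto_atTop_mono (fun k => (hM.id_le k).trans (Nat.le_succ _)) tendsto_id
    have h3 := (Complex.continuous_re.tendsto _).comp (h1.comp h2)
    have h4 : (1 / 2 : ℝ) ≤ (p.sum z).re := by
      refine ge_of_tendsto' h3 fun k => ?_
      obtain ⟨h, hs, hh⟩ := hst k
      have := re_disc hs (mem_ball_zero_iff.1 hz)
      simp only [Function.comp]
      refine this.trans (le_of_eq ?_)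
      congr 1
      refine sum_congr rfl fun n hn => ?_
      rw [hh n (Nat.lt_succ_iff.1 (mem_range.1 hn))]
    linarith
  · intro z hz
    have hz1 : ‖z‖ < 1 := mem_ball_zero_iff.1 hz
    have hd := hconv.deriv (Eventually.of_forall fun n => by
      apply Differentiable.differentiableOn; fun_prop) Metric.isOpen_ball
    have h1 := (hd.tendsto_at hz).norm
    have h2 : ‖deriv p.sum z‖ ≤ 1 / (1 - ‖z‖) := by
      refine le_of_tendsto' h1 fun n => ?_
      simp only [Function.comp]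
      have h3 : deriv (fun z : ℂ => ∑ k ∈ range n, (a k : ℂ) * z ^ k) z = ∑ k ∈ range n, (a k : ℂ) * (k * z ^ (k - 1)) := by
        rw [deriv_fun_sum (fun k _ => by fun_prop)]
        refine sum_congr rfl fun k _ => ?_
        rw [deriv_const_mul _ (by fun_prop), deriv_pow_field]
      rw [h3]
      refine (norm_sum_le _ _).trans ?_
      have h4 : ∑ k ∈ range n, ‖(a k : ℂ) * (k * z ^ (k - 1))‖ ≤ ∑ k ∈ range n, ((k + 1 : ℕ) : ℝ) * a (k + 1) * ‖z‖ ^ k := by
        rcases n with _ | n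
        · simp
        · rw [sum_range_succ']
          simp only [Nat.cast_zero, zero_mul, mul_zero, norm_zero, add_zero]
          refine (sum_le_sum_of_subset_of_nonneg (range_subset_range.2 (Nat.le_succ n)) (fun k _ _ => norm_nonneg _)).trans ?_
          refine sum_le_sum fun k _ => le_of_eq ?_
          rw [norm_mul, norm_mul, norm_pow, Complex.norm_real, Real.norm_of_nonneg (ha0 _), Complex.norm_natCast,
            Nat.add_sub_cancel]
          ring
      refine h4.trans ?_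
      refine (abel (fun k => ((k + 1 : ℕ) : ℝ) * a (k + 1)) ?_ (norm_nonneg z) hz1.le n).trans ?_
      · intro K
        have h5 := hbl K
        rw [sum_range_succ'] at h5
        simpa using h5
      · rw [le_div_iff₀ (by linarith)]
        have h6 := geom_sum_mul_neg ‖z‖ n
        rw [h6]
        have : 0 ≤ ‖z‖ ^ n := by positivity
        linarith
    have h3 : 0 < 1 - ‖z‖ := by linarith
    have h4 : 0 ≤ 1 - ‖z‖ ^ 2 := by nlinarith [norm_nonneg z]
    calc (1 - ‖z‖ ^ 2) * ‖deriv p.sum z‖ ≤ (1 - ‖z‖ ^ 2) * (1 / (1 - ‖z‖)) := mul_le_mul_of_nonneg_left h2 h4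
      _ = 1 + ‖z‖ := by field_simp; ring
      _ ≤ 2 := by linarith
  · intro n _
    refine ⟨ha0 n, ?_⟩
    have h1 := hf.factorial_smul 1 n
    rw [iteratedDeriv_eq_iteratedFDeriv]
    rw [hp, FormalMultilinearSeries.ofScalars_apply_eq] at h1
    rw [← hp] at h1
    rw [← h1]
    simp
  · intro hsum
    have h1 : ∀ K : ℕ, (K : ℝ) / 4 ≤ ∑ n ∈ range (M K + 1), a n ^ 2 := by
      intro K
      induction K with
      | zero => simp only [Nat.cast_zero, zero_div]; positivity
      | succ K ih =>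
        have h2 : range (M (K + 1) + 1) = range (M K + 1) ∪ Finset.Ioc (M K) (M (K + 1)) := by
          ext x
          have := (hM (Nat.lt_succ_self K)).le
          simp only [mem_range, mem_union, Finset.mem_Ioc]
          simp only [Nat.succ_eq_add_one] at this
          omega
        rw [h2, sum_union]
        · have := hbig K
          push_cast
          linarith
        · rw [disjoint_left]
          intro x hx hx'
          rw [mem_range] at hx
          rw [Finset.mem_Ioc] at hx'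
          omega
    obtain ⟨K, hK⟩ := exists_nat_gt (4 * ∑' n, a n ^ 2)
    have h2 := hsum.sum_le_tsum (range (M K + 1)) (fun n _ => by positivity)
    have h3 := h1 K
    linarith

end Pool.Agent.H7.Bloch
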